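import Pool.Agent.TH131.Semi.Defs

/-!
# Independence of `ℓ`: definitions
-/

set_option autoImplicit false

open CategoryTheory CategoryTheory.Limits AlgebraicGeometry

namespace Pool.Agent.TH131.LInd

open Pool.Agent.TH90.Cub Pool.Agent.TH590.JH Pool.Agent.TH131.Semi

universe v u

/-- The primes `ℓ ≠ p`. -/
abbrev OtherPrimes (p : ℕ) : Type := {ℓ : ℕ // ℓ.Prime ∧ ℓ ≠ p}

instance fact_prime (p : ℕ) (ℓ : OtherPrimes p) : Fact (ℓ : ℕ).Prime := ⟨ℓ.2.1⟩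

/-- The field `ℚ_ℓ`. -/
abbrev Coefficients (p : ℕ) (ℓ : OtherPrimes p) : Type := ℚ_[(ℓ : ℕ)]

/-- The trace of an endomorphism of a vector space. -/
noncomputable def traceOf {K V : Type} [Field K] [AddCommGroup V] [Module K V]
    (φ : V →ₗ[K] V) : K :=
  LinearMap.trace K V φ

/-- The inertia invariants `M_ℓ^{I_p}` of the `ℓ`-adic realizations of `M`, `ℓ ≠ p`, and the geometric
Frobenius `F_p` on them; `K ℓ` is the field `ℚ_ℓ`. -/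
structure Frobenius (𝓐 : Type u) [Category.{v} 𝓐] {p : ℕ} (K : OtherPrimes p → Type)
    [∀ ℓ, Field (K ℓ)] where
  /-- `M_ℓ^{I_p}` -/
  R : ∀ ℓ, 𝓐 ⥤ ModuleCat.{0} (K ℓ)
  /-- `F_p` -/
  F : ∀ ℓ (M : 𝓐), (R ℓ).obj M →ₗ[K ℓ] (R ℓ).obj M

namespace Frobenius

variable {𝓐 : Type u} [Category.{v} 𝓐] {p : ℕ} {K : OtherPrimes p → Type} [∀ ℓ, Field (K ℓ)]
  (𝓕 : Frobenius 𝓐 K)

/-- `F_p^n` -/
def pow (ℓ : OtherPrimes p) (M : 𝓐) (n : ℕ) : (𝓕.R ℓ).obj M →ₗ[K ℓ] (𝓕.R ℓ).obj M :=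
  𝓕.F ℓ M ^ n

/-- `F_p^n f` -/
def op (ℓ : OtherPrimes p) (M : 𝓐) (f : M ⟶ M) (n : ℕ) :
    (𝓕.R ℓ).obj M →ₗ[K ℓ] (𝓕.R ℓ).obj M :=
  𝓕.pow ℓ M n ∘ₗ ((𝓕.R ℓ).map f).hom

/-- The trace of `F_p^n f` on `M_ℓ^{I_p}`, for an endomorphism `f` of `M`. -/
noncomputable def tr (ℓ : OtherPrimes p) (M : 𝓐) (f : M ⟶ M) (n : ℕ) : K ℓ :=
  traceOf (𝓕.op ℓ M f n)

/-- `M_ℓ^{I_p}` is finite dimensional. -/
def Finite : Prop := ∀ (ℓ : OtherPrimes p) (M : 𝓐), FiniteDimensional (K ℓ) ((𝓕.R ℓ).obj M)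

/-- `F_p` commutes with the maps induced by morphisms of motives. -/
def Natural : Prop := ∀ (ℓ : OtherPrimes p) (M N : 𝓐) (f : M ⟶ N),
  ((𝓕.R ℓ).map f).hom ∘ₗ 𝓕.F ℓ M = 𝓕.F ℓ N ∘ₗ ((𝓕.R ℓ).map f).hom

/-- A Tate twist `M(m)` multiplies `F_p` by `p^{-m}`. -/
def Twist {k : Type} [CommRing k] [Abelian 𝓐] (T : Theory k 𝓐) : Prop :=
  ∀ (ℓ : OtherPrimes p) (m : ℤ) (M : 𝓐) (f : M ⟶ M) (n : ℕ),
    𝓕.tr ℓ ((T.tw m).obj M) ((T.tw m).map f) n = ((p : K ℓ) ^ (-m)) ^ n * 𝓕.tr ℓ M f n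

end Frobenius

/-- The inertia invariants with their formal properties: additive functors, `F_p` is natural, Tate
twists. -/
structure Inertia {k : Type} [Field k] {𝓐 : Type u} [Category.{v} 𝓐] [Abelian 𝓐]
    (T : Theory k 𝓐) {p : ℕ} (K : OtherPrimes p → Type) [∀ ℓ, Field (K ℓ)] extends
    Frobenius 𝓐 K where
  additive : ∀ ℓ : OtherPrimes p, (R ℓ).Additive
  finite : toFrobenius.Finite
  natural : toFrobenius.Natural
  twist : toFrobenius.Twist T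

variable {k : Type} [Field k] {𝓐 : Type u} [Category.{v} 𝓐] [Abelian 𝓐] {T : Theory k 𝓐}
  {p : ℕ} {K : OtherPrimes p → Type} [∀ ℓ, Field (K ℓ)] (𝓡 : Inertia T K)

/-- For the endomorphism `f` of `M` and `n ≥ 1` the trace of `F_p^n f` on `M_ℓ^{I_p}` is a rational
number which does not depend on `ℓ ≠ p`. -/
def Inertia.IndepOf (M : 𝓐) (f : M ⟶ M) : Prop :=
  ∀ n : ℕ, 1 ≤ n → ∃ q : ℚ, ∀ ℓ : OtherPrimes p, 𝓡.tr ℓ M f n = (q : K ℓ)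

/-- For all endomorphisms `f` of `M` and `n ≥ 1` the trace of `F_p^n f` on `M_ℓ^{I_p}` is a rational
number which does not depend on `ℓ ≠ p`. -/
def Inertia.Indep (M : 𝓐) : Prop := ∀ f : M ⟶ M, 𝓡.IndepOf M f

/-- Strong independence of `ℓ` at `p`, for all pure motives over `k`. -/
def Inertia.AllIndep : Prop := ∀ (w : ℤ) (M : 𝓐), T.IsPure w M → 𝓡.Indep M

/-- Strong independence of `ℓ` at `p`, for all `Gr^W_w H_c^j(C)`, `C` a hypersurface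
`g_0 t_0 + ⋯ + g_r t_r = 1` over `k`, each `g_i` being of the form `x_a x_b - x_c`,
`x_a + x_b - x_c` or `x_a - s` with `s ∈ S`. -/
def Inertia.CubicsIndep (𝓦 : Weights T) (S : Set k) : Prop :=
  ∀ M : 𝓐, T.IsHC S M → ∀ w : ℤ, 𝓡.Indep (𝓦.gr w M)

/-- Strong independence of `ℓ` at `p`, for all `Gr^W_w H_c^i(X)`, `X` separated of finite type over
`k`. -/
def Inertia.SchemesIndep (𝓦 : Weights T) : Prop :=
  ∀ {X : Scheme.{0}} (f : X ⟶ Spec (CommRingCat.of k)), FT True k f →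
    ∀ i w : ℤ, 𝓡.Indep (𝓦.gr w (T.H i X f))

/-- Independence of `ℓ` at `p` of the traces of the powers of `F_p` on `(π H^i(X)(r))^{I_p}`, for
all smooth projective `X` over `k` and idempotents `π`. -/
def Inertia.ChowIndep : Prop :=
  ∀ {X : Scheme.{0}} (f : X ⟶ Spec (CommRingCat.of k)), SmoothProjective f → ∀ (i r : ℤ)
    (π : (T.tw r).obj (T.H i X f) ⟶ (T.tw r).obj (T.H i X f)), π ≫ π = π →
    𝓡.IndepOf ((T.tw r).obj (T.H i X f)) π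

end Pool.Agent.TH131.LInd
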