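import Pool.Agent.TH131.LInd.Defs
import Pool.Agent.TH131.MTate.Main

/-!
# Independence of `ℓ`: the dévissage
-/

set_option autoImplicit false

open CategoryTheory CategoryTheory.Limits AlgebraicGeometry

namespace Pool.Agent.TH131.LInd

open Pool.Agent.TH90.Cub Pool.Agent.TH590.JH Pool.Agent.TH131.Semi

universe v u

attribute [local instance] Abelian.hasFiniteBiproducts

variable {k : Type} [Field k] {𝓐 : Type u} [Category.{v} 𝓐] [Abelian 𝓐] {T : Theory k 𝓐}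
  {p : ℕ} {K : OtherPrimes p → Type} [∀ ℓ, Field (K ℓ)] (𝓡 : Inertia T K)

lemma natural_pow (ℓ : OtherPrimes p) {M N : 𝓐} (f : M ⟶ N) (n : ℕ) :
    ((𝓡.R ℓ).map f).hom ∘ₗ (𝓡.F ℓ M ^ n) = (𝓡.F ℓ N ^ n) ∘ₗ ((𝓡.R ℓ).map f).hom := by
  induction n with
  | zero => rfl
  | succ n ih =>
    rw [pow_succ, pow_succ, Module.End.mul_eq_comp, Module.End.mul_eq_comp, ← LinearMap.comp_assoc,
      ih, LinearMap.comp_assoc, 𝓡.natural ℓ M N f, LinearMap.comp_assoc]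

lemma map_comp_hom (ℓ : OtherPrimes p) {M N L : 𝓐} (f : M ⟶ N) (g : N ⟶ L) :
    ((𝓡.R ℓ).map (f ≫ g)).hom = ((𝓡.R ℓ).map g).hom ∘ₗ ((𝓡.R ℓ).map f).hom := by
  rw [Functor.map_comp]
  rfl

/-- cyclicity -/
lemma tr_cyclic (ℓ : OtherPrimes p) {M N : 𝓐} (f : M ⟶ N) (g : N ⟶ M) (n : ℕ) :
    𝓡.tr ℓ M (f ≫ g) n = 𝓡.tr ℓ N (g ≫ f) n := by
  have := 𝓡.finite ℓ M
  have := 𝓡.finite ℓ N
  unfold Frobenius.tr traceOf Frobenius.op Frobenius.pow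
  rw [map_comp_hom, map_comp_hom, ← LinearMap.comp_assoc, ← natural_pow, LinearMap.comp_assoc,
    LinearMap.trace_comp_comm', LinearMap.comp_assoc]

lemma indep_retract {M N : 𝓐} (i : N ⟶ M) (q : M ⟶ N) (hip : i ≫ q = 𝟙 N) (h : 𝓡.Indep M) :
    𝓡.Indep N := by
  intro f n hn
  obtain ⟨c, hc⟩ := h (q ≫ f ≫ i) n hn
  refine ⟨c, fun ℓ => ?_⟩
  rw [← hc ℓ, tr_cyclic, Category.assoc, hip, Category.comp_id]

lemma indep_iso {M N : 𝓐} (e : M ≅ N) (h : 𝓡.Indep M) : 𝓡.Indep N :=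
  indep_retract 𝓡 e.inv e.hom e.inv_hom_id h

lemma indep_sum [∀ ℓ, CharZero (K ℓ)] {m : ℕ} (S : Fin m → 𝓐) (h : ∀ a, 𝓡.Indep (S a)) : 𝓡.Indep (⨁ S) := by
  intro f n hn
  choose c hc using fun a => h a (biproduct.ι S a ≫ f ≫ biproduct.π S a) n hn
  refine ⟨∑ a, c a, fun ℓ => ?_⟩
  have hadd := 𝓡.additive ℓ
  have h1 : f = ∑ a, (f ≫ biproduct.π S a) ≫ biproduct.ι S a := by
    conv_lhs => rw [← Category.comp_id f, ← biproduct.total, Preadditive.comp_sum]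
    exact Finset.sum_congr rfl fun a _ => (Category.assoc _ _ _).symm
  have h2 : 𝓡.tr ℓ (⨁ S) f n =
      ∑ a, 𝓡.tr ℓ (⨁ S) ((f ≫ biproduct.π S a) ≫ biproduct.ι S a) n := by
    conv_lhs => rw [h1]
    unfold Frobenius.tr traceOf Frobenius.op Frobenius.pow
    have h3 : ((𝓡.R ℓ).map (∑ a, (f ≫ biproduct.π S a) ≫ biproduct.ι S a)).hom =
        ∑ a, ((𝓡.R ℓ).map ((f ≫ biproduct.π S a) ≫ biproduct.ι S a)).hom := by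
      rw [Functor.map_sum, ModuleCat.hom_sum]
    have h4 : (𝓡.F ℓ (⨁ S) ^ n) ∘ₗ
        (∑ a, ((𝓡.R ℓ).map ((f ≫ biproduct.π S a) ≫ biproduct.ι S a)).hom) =
        ∑ a, (𝓡.F ℓ (⨁ S) ^ n) ∘ₗ
          ((𝓡.R ℓ).map ((f ≫ biproduct.π S a) ≫ biproduct.ι S a)).hom :=
      Finset.mul_sum _ _ (𝓡.F ℓ (⨁ S) ^ n : Module.End (K ℓ) ((𝓡.R ℓ).obj (⨁ S)))
    rw [h3, h4, map_sum]
  rw [h2, Rat.cast_sum]
  refine Finset.sum_congr rfl fun a _ => ?_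
  rw [tr_cyclic, hc a ℓ]

lemma indep_tw [∀ ℓ, CharZero (K ℓ)] (m : ℤ) {M : 𝓐} (h : 𝓡.Indep M) : 𝓡.Indep ((T.tw m).obj M) := by
  intro f n hn
  obtain ⟨f', rfl⟩ := (T.tw m).map_surjective f
  obtain ⟨c, hc⟩ := h f' n hn
  refine ⟨((p : ℚ) ^ (-m)) ^ n * c, fun ℓ => ?_⟩
  have h1 := 𝓡.twist ℓ m M f' n
  rw [h1, hc ℓ]
  push_cast
  rfl

/-- a simple subquotient of `M(m)` -/
lemma indep_simple [∀ ℓ, CharZero (K ℓ)] (𝓦 : Weights T) (M : 𝓐) (h : ∀ w, 𝓡.Indep (𝓦.gr w M)) (m : ℤ) (N : 𝓐)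
    (hN : Simple N) (hq : SubQuot N ((T.tw m).obj M)) : 𝓡.Indep N := by
  obtain ⟨e⟩ := T.twIso m (-m) (by ring)
  obtain ⟨e'⟩ := T.twIso (-m) m (by ring)
  have h2 : SubQuot ((T.tw (-m)).obj N) M := (hq.map (T.tw (-m))).of_iso (e.app _)
  have h3 := simple_obj (T.tw (-m)) N
  obtain ⟨w, hw⟩ := 𝓦.cover _ _ h3 h2
  obtain ⟨n, S, hS, ⟨E⟩⟩ := 𝓦.semisimple w M
  obtain ⟨i, q, hiq⟩ := MTate.retract_of_subquot h3 S hS E hw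
  exact indep_iso 𝓡 (e'.app N) (indep_tw 𝓡 m (indep_retract 𝓡 i q hiq (h w)))

lemma indep_gr [∀ ℓ, CharZero (K ℓ)] (𝓦 : Weights T) (M : 𝓐) (w : ℤ)
    (h : ∀ N : 𝓐, Simple N → SubQuot N M → 𝓡.Indep N) : 𝓡.Indep (𝓦.gr w M) := by
  obtain ⟨n, S, hS, ⟨E⟩⟩ := 𝓦.semisimple w M
  refine indep_iso 𝓡 E.symm (indep_sum 𝓡 S fun a => h _ (hS a) ?_)
  have h2 : SubQuot (S a) (⨁ S) := ⟨S a, biproduct.ι S a, 𝟙 _, inferInstance, inferInstance⟩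
  exact (h2.of_iso E.symm).trans (𝓦.sub w M)

end Pool.Agent.TH131.LInd

namespace Pool.Agent.TH131.LInd

open Pool.Agent.TH90.Cub Pool.Agent.TH590.JH Pool.Agent.TH131.Semi

universe v u

attribute [local instance] Abelian.hasFiniteBiproducts

theorem main {k : Type} [Field k] {𝓐 : Type u} [Category.{v} 𝓐] [Abelian 𝓐] {p : ℕ}
    {K : OtherPrimes p → Type} [∀ ℓ, Field (K ℓ)] [∀ ℓ, CharZero (K ℓ)]
    (T : WeightTheory k 𝓐) (𝓦 : Weights T.toTheory) (𝓡 : Inertia T.toTheory K)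
    {S : Set k} (hS : Subfield.closure S = ⊤) (h1 : (1 : k) ∈ S) :
    (𝓡.AllIndep ↔ 𝓡.CubicsIndep 𝓦 S) ∧ (𝓡.AllIndep → 𝓡.SchemesIndep 𝓦) ∧
      (𝓡.AllIndep → 𝓡.ChowIndep) := by
  have hall : 𝓡.AllIndep → 𝓡.SchemesIndep 𝓦 := by
    intro h X f hf i w
    refine indep_gr 𝓡 𝓦 _ w fun N hN hq => ?_
    obtain ⟨e0⟩ := T.tw_zero
    obtain ⟨w', hw'⟩ := T.pure f hf i 0 N hN (hq.of_iso (e0.symm.app _))
    exact h w' N hw'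
  refine ⟨⟨fun h M hM w => ?_, fun h => ?_⟩, hall, fun h X f hf i r π _ => ?_⟩
  · obtain ⟨n, r, g, j, hg, rfl⟩ := hM
    exact hall h (str k (Cubic g)) (cubic_ft g) j w
  · rintro w M ⟨n, N, hN, ⟨E⟩⟩
    refine indep_iso 𝓡 E.symm (indep_sum 𝓡 N fun a => ?_)
    obtain ⟨hs, X, f, i, m, hf, -, hq⟩ := hN a
    obtain ⟨n', r, g, hg, j, m', hq'⟩ := T.toTheory.fromCubic hS h1 f hf.ft i m _ hs hq
    exact indep_simple 𝓡 𝓦 (T.HC j g) (h _ ⟨n', r, g, j, hg, rfl⟩) m' _ hs hq'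
  · obtain ⟨e⟩ := 𝓦.pure f hf i
    exact indep_tw 𝓡 r (indep_iso 𝓡 e (hall h f hf.ft i i)) π

end Pool.Agent.TH131.LInd
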